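import Pool.Agent.H34.ZN.Targets
import Pool.Agent.H27.L1.H69.GB.Lone

/-!
Far to the right the L-function is near 1, uniformly in the form (board zn, row FAR).
-/

set_option autoImplicit false

namespace Pool.Agent.H31.ZN

open MeasureTheory Pool.Agent.H27.L1.H34.GM Pool.Agent.H27.L1.H34.GZ Pool.Agent.H27.L1.H34.GU
  Pool.Agent.H27.L1.H34.GA Pool.Agent.H34.ZN

/-- the bound of the eigenvalues by the number of the representatives -/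
theorem lam_bd {m N : ℕ} [NeZero N] {T : ℕ → Finset (ZM m)} {D : Set (V m)}
    (hS : SysZ m N T D) {F : Mat m → VN m N → ℂ} {lam : ℕ → ℂ} (hF : HecA m N T F lam)
    (hN : NZ F) {C : ℝ} (hC : ∀ n : ℕ, 1 ≤ n → ((T n).card : ℝ) ≤ C * (n : ℝ) ^ m)
    {n : ℕ} (hn : 1 ≤ n) :
    ‖(n : ℂ) ^ (((m : ℂ) - 1) / 2) * lam n‖ ≤ 2 * C * (n : ℝ) ^ m := by
  obtain ⟨M, hM⟩ := hF.bdd
  set S : Set ℝ := {y | ∃ g x, g.det ≠ 0 ∧ y = ‖F g x‖} with hSdef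
  have hbd : BddAbove S := by
    refine ⟨M, ?_⟩
    rintro y ⟨g, x, hg, rfl⟩
    exact hM g x hg
  obtain ⟨g0, x0, hg0, hF0⟩ := hN
  have hmem0 : ‖F g0 x0‖ ∈ S := ⟨g0, x0, hg0, rfl⟩
  have hpos : 0 < sSup S := lt_of_lt_of_le (norm_pos_iff.2 hF0) (le_csSup hbd hmem0)
  obtain ⟨y, ⟨g, x, hg, rfl⟩, hy⟩ := exists_lt_of_lt_csSup ⟨_, hmem0⟩ (half_lt_self hpos)
  have h1 := hF.hecke n hn g x hg
  have h2 : ‖∑ α ∈ T n, F (cR α * g) (ac N α x)‖ ≤ ((T n).card : ℝ) * sSup S := by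
    calc ‖∑ α ∈ T n, F (cR α * g) (ac N α x)‖ ≤ ∑ α ∈ T n, ‖F (cR α * g) (ac N α x)‖ :=
          norm_sum_le _ _
      _ ≤ ∑ _α ∈ T n, sSup S := by
          apply Finset.sum_le_sum
          intro α hα
          apply le_csSup hbd
          refine ⟨cR α * g, ac N α x, ?_, rfl⟩
          have h3 := hS.reps.mem n hn α hα
          rw [Matrix.det_mul]
          apply mul_ne_zero _ hg
          rw [Pool.Agent.H27.L1.H69.GB.cR_det]
          intro h0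
          have h4 : α.det = 0 := by exact_mod_cast h0
          rw [h4, Int.natAbs_zero] at h3
          omega
      _ = ((T n).card : ℝ) * sSup S := by rw [Finset.sum_const, nsmul_eq_mul]
  rw [h1, norm_mul] at h2
  have h4 := hC n hn
  set L := ‖(n : ℂ) ^ (((m : ℂ) - 1) / 2) * lam n‖ with hL
  have hL0 : 0 ≤ L := norm_nonneg _
  have h5 : L * (sSup S / 2) ≤ C * (n : ℝ) ^ m * sSup S := by
    calc L * (sSup S / 2) ≤ L * ‖F g x‖ := mul_le_mul_of_nonneg_left hy.le hL0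
      _ ≤ ((T n).card : ℝ) * sSup S := h2
      _ ≤ C * (n : ℝ) ^ m * sSup S := mul_le_mul_of_nonneg_right h4 hpos.le
  have h6 : L / 2 ≤ C * (n : ℝ) ^ m := by
    have : L / 2 * sSup S ≤ C * (n : ℝ) ^ m * sSup S := by linarith [h5]
    exact le_of_mul_le_mul_right this hpos
  linarith

/-- the bound for one term -/
theorem term_bd {m k n : ℕ} {C : ℝ} {l s : ℂ} (hm : 1 ≤ m) (hn : 2 ≤ n)
    (hl : ‖(n : ℂ) ^ (((m : ℂ) - 1) / 2) * l‖ ≤ 2 * C * (n : ℝ) ^ m)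
    (hs : (m : ℝ) + 2 + k ≤ s.re) :
    ‖l * (n : ℂ) ^ (-s)‖ ≤ 2 * C * (1 / 2) ^ k * (1 / (n : ℝ) ^ 2) := by
  have hn0 : 0 < n := by omega
  have hnr : (0 : ℝ) < n := by exact_mod_cast hn0
  have hn1 : (1 : ℝ) ≤ n := by exact_mod_cast hn0
  have hn2 : (2 : ℝ) ≤ n := by exact_mod_cast hn
  have hm1 : (1 : ℝ) ≤ m := by exact_mod_cast hm
  have h1 : ‖(n : ℂ) ^ (((m : ℂ) - 1) / 2)‖ = (n : ℝ) ^ (((m : ℝ) - 1) / 2) := by
    rw [Complex.norm_natCast_cpow_of_pos hn0]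
    congr 1
    rw [show (((m : ℂ) - 1) / 2) = ((((m : ℝ) - 1) / 2 : ℝ) : ℂ) by push_cast; ring,
      Complex.ofReal_re]
  have h2 : (1 : ℝ) ≤ (n : ℝ) ^ (((m : ℝ) - 1) / 2) := Real.one_le_rpow hn1 (by linarith)
  have h3 : ‖l‖ ≤ 2 * C * (n : ℝ) ^ m := by
    rw [norm_mul, h1] at hl
    calc ‖l‖ = 1 * ‖l‖ := (one_mul _).symm
      _ ≤ (n : ℝ) ^ (((m : ℝ) - 1) / 2) * ‖l‖ := mul_le_mul_of_nonneg_right h2 (norm_nonneg _)
      _ ≤ _ := hl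
  have hC0 : 0 ≤ 2 * C := by
    have h5 : 0 ≤ 2 * C * (n : ℝ) ^ m := le_trans (norm_nonneg _) h3
    exact nonneg_of_mul_nonneg_left h5 (by positivity)
  have h4 : ‖(n : ℂ) ^ (-s)‖ ≤ (n : ℝ) ^ (-((m : ℝ) + 2 + k)) := by
    rw [Complex.norm_natCast_cpow_of_pos hn0, Complex.neg_re]
    exact Real.rpow_le_rpow_of_exponent_le hn1 (by linarith)
  have h6 : (n : ℝ) ^ (-((m : ℝ) + 2 + k)) = ((n : ℝ) ^ m)⁻¹ * ((n : ℝ) ^ 2)⁻¹ * ((n : ℝ) ^ k)⁻¹ := by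
    rw [show (m : ℝ) + 2 + k = ((m + 2 + k : ℕ) : ℝ) by push_cast; ring, Real.rpow_neg hnr.le,
      Real.rpow_natCast, pow_add, pow_add, mul_inv, mul_inv]
  have h7 : ((n : ℝ) ^ k)⁻¹ ≤ (1 / 2) ^ k := by
    rw [one_div, inv_pow]
    exact inv_anti₀ (by positivity) (pow_le_pow_left₀ (by norm_num) hn2 k)
  have hpm : (0 : ℝ) < (n : ℝ) ^ m := by positivity
  have hp2 : (0 : ℝ) < (n : ℝ) ^ 2 := by positivity
  rw [norm_mul]
  calc ‖l‖ * ‖(n : ℂ) ^ (-s)‖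
      ≤ (2 * C * (n : ℝ) ^ m) * (((n : ℝ) ^ m)⁻¹ * ((n : ℝ) ^ 2)⁻¹ * ((n : ℝ) ^ k)⁻¹) := by
        rw [← h6]
        exact mul_le_mul h3 h4 (norm_nonneg _) (by positivity)
    _ = 2 * C * ((n : ℝ) ^ 2)⁻¹ * ((n : ℝ) ^ k)⁻¹ := by
        field_simp
    _ ≤ 2 * C * ((n : ℝ) ^ 2)⁻¹ * (1 / 2) ^ k :=
        mul_le_mul_of_nonneg_left h7 (by positivity)
    _ = 2 * C * (1 / 2) ^ k * (1 / (n : ℝ) ^ 2) := by
        rw [one_div ((n : ℝ) ^ 2)]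
        ring

theorem pf_FAR : T_TNZ → T_FAR := by
  intro hT m hm
  obtain ⟨C, hC0, hC⟩ := hT m hm
  have hS2 : Summable (fun n : ℕ => 1 / (n : ℝ) ^ 2) :=
    Real.summable_one_div_nat_pow.2 one_lt_two
  set S : ℝ := ∑' n : ℕ, 1 / (n : ℝ) ^ 2 with hSdef
  have hS0 : 0 ≤ S := tsum_nonneg fun n => by positivity
  obtain ⟨k, hk⟩ := exists_nat_ge (2 * (2 * C * S))
  have hk2 : (2 * (2 * C * S)) ≤ (2 : ℝ) ^ k := by
    refine hk.trans ?_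
    exact_mod_cast (Nat.lt_two_pow_self (n := k)).le
  have hsmall : 2 * C * (1 / 2) ^ k * S ≤ 1 / 2 := by
    have h2k : (0 : ℝ) < (2 : ℝ) ^ k := by positivity
    rw [one_div, inv_pow]
    have e : 2 * C * ((2 : ℝ) ^ k)⁻¹ * S = (2 * C * S) / (2 : ℝ) ^ k := by
      rw [div_eq_mul_inv]
      ring
    rw [e, div_le_iff₀ h2k]
    linarith
  refine ⟨(m : ℝ) + 3 + k, ?_, ?_⟩
  · have h1 : (0 : ℝ) ≤ (m : ℝ) := Nat.cast_nonneg _
    have h2 : (0 : ℝ) ≤ (k : ℝ) := Nat.cast_nonneg _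
    linarith
  intro N _ T D hS F lam hF hN L hL s hs
  have h1 := Pool.Agent.H27.L1.H69.GB.lam_one hS hF.toHecA hN
  have hk0 : (0 : ℝ) ≤ (k : ℝ) := Nat.cast_nonneg _
  have hsum := hL.2 s (by linarith)
  have hg : HasSum (fun n : ℕ => if n = 1 then (1 : ℂ) else 0) 1 := hasSum_ite_eq 1 1
  have hd := hsum.sub hg
  have hmaj : HasSum (fun n : ℕ => 2 * C * (1 / 2) ^ k * (1 / (n : ℝ) ^ 2))
      (2 * C * (1 / 2) ^ k * S) := hS2.hasSum.mul_left _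
  have hbound : ∀ n : ℕ, ‖(if 1 ≤ n ∧ n.Coprime 1 then lam n * (n : ℂ) ^ (-s) else 0) -
      (if n = 1 then (1 : ℂ) else 0)‖ ≤ 2 * C * (1 / 2) ^ k * (1 / (n : ℝ) ^ 2) := by
    intro n
    rcases Nat.lt_or_ge n 2 with hn | hn
    · rcases Nat.eq_zero_or_pos n with h0 | h0
      · rw [if_neg (by omega), if_neg (by omega), sub_zero, norm_zero]
        positivity
      · have hn1 : n = 1 := by omega
        subst hn1
        rw [if_pos ⟨le_rfl, Nat.coprime_one_right 1⟩, if_pos rfl, h1, Nat.cast_one,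
          Complex.one_cpow, mul_one, sub_self, norm_zero]
        positivity
    · rw [if_pos ⟨by omega, Nat.coprime_one_right n⟩, if_neg (by omega), sub_zero]
      exact term_bd hm hn (lam_bd hS hF.toHecA hN (hC T hS.reps) (by omega)) (by linarith)
  calc ‖L s - 1‖ = ‖∑' n : ℕ, ((if 1 ≤ n ∧ n.Coprime 1 then lam n * (n : ℂ) ^ (-s) else 0) -
      (if n = 1 then (1 : ℂ) else 0))‖ := by rw [hd.tsum_eq]
    _ ≤ 2 * C * (1 / 2) ^ k * S := tsum_of_norm_bounded hmaj hbound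
    _ ≤ 1 / 2 := hsmall

theorem c_FAR : T_FAR := pf_FAR Pool.Agent.H27.L1.H34.GZ.a_TNZ

end Pool.Agent.H31.ZN
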